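import Pool.Agent.H882R2.Final

/-!
# The standard tori have arbitrarily close metrics without isometric immersion into `ℝ³`

The torus is `T² = ℝ² / (2πℤ)²`; functions, tensors and maps on `T²` are written as doubly
`2π`-periodic ones on the plane with coordinates `u = x 0`, `v = x 1`.
-/

set_option autoImplicit false

open scoped RealInnerProductSpace ContDiff

namespace Pool.Agent.Results.MP_665542_gt.StandardTorus

/-- the coordinate plane, the universal covering of the torus `T²` -/
abbrev Plane := EuclideanSpace ℝ (Fin 2)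

/-- Euclidean 3-space -/
abbrev Space := EuclideanSpace ℝ (Fin 3)

/-- The function `h` on the plane descends to the torus `T² = ℝ² / (2πℤ)²`. -/
def OnTorus {X : Type} (h : Plane → X) : Prop :=
  ∀ (x : Plane) (i : Fin 2), h (x + (2 * Real.pi) • EuclideanSpace.single i 1) = h x

/-- A symmetric 2-tensor `E du² + 2 F du dv + G dv²`, given by its coefficients. -/
structure Tensor where
  E : Plane → ℝ
  F : Plane → ℝ
  G : Plane → ℝ

/-- `g` is a smooth Riemannian metric on the torus. -/
structure IsMetric (g : Tensor) : Prop where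
  smooth_E : ContDiff ℝ ∞ g.E
  smooth_F : ContDiff ℝ ∞ g.F
  smooth_G : ContDiff ℝ ∞ g.G
  torus_E : OnTorus g.E
  torus_F : OnTorus g.F
  torus_G : OnTorus g.G
  E_pos : ∀ x, 0 < g.E x
  det_pos : ∀ x, 0 < g.E x * g.G x - g.F x ^ 2

/-- partial derivative of `f` in the direction of the `i`-th coordinate -/
noncomputable def partialD (i : Fin 2) (f : Plane → Space) (x : Plane) : Space :=
  fderiv ℝ f x (EuclideanSpace.single i 1)

/-- `f` is an isometric immersion of class `C^k` of the torus with the metric `g` into Euclidean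
3-space: it is a `C^k` map of the torus which pulls the Euclidean metric back to `g`. -/
structure IsIsometricImmersion (k : ℕ∞) (g : Tensor) (f : Plane → Space) : Prop where
  contDiff : ContDiff ℝ k f
  torus : OnTorus f
  eq_E : ∀ x, ⟪partialD 0 f x, partialD 0 f x⟫ = g.E x
  eq_F : ∀ x, ⟪partialD 0 f x, partialD 1 f x⟫ = g.F x
  eq_G : ∀ x, ⟪partialD 1 f x, partialD 1 f x⟫ = g.G x

/-- `f` is a smooth isometric embedding of the torus with the metric `g` into Euclidean 3-space:
a smooth isometric immersion which is injective on the torus. -/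
structure IsIsometricEmbedding (g : Tensor) (f : Plane → Space) : Prop where
  immersion : IsIsometricImmersion ⊤ g f
  injective : ∀ x y, f x = f y → ∃ m n : ℤ,
    y = x + (2 * Real.pi * m) • EuclideanSpace.single 0 1 +
      (2 * Real.pi * n) • EuclideanSpace.single 1 1

/-- The pointwise norm `|g - g₀|_{g₀}` at `x` of the symmetric tensor `g - g₀` with respect to the
metric `g₀`, that is, the square root of the trace of `(g₀⁻¹ (g - g₀))²`. -/
noncomputable def pointNorm (g₀ g : Tensor) (x : Plane) : ℝ :=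
  √(Matrix.trace
    (((!![g₀.E x, g₀.F x; g₀.F x, g₀.G x] : Matrix (Fin 2) (Fin 2) ℝ)⁻¹ *
      !![g.E x - g₀.E x, g.F x - g₀.F x; g.F x - g₀.F x, g.G x - g₀.G x]) ^ 2))

/-- `‖g - g₀‖_{C⁰} < ε`: the supremum over the torus of the pointwise norm of `g - g₀` is smaller
than `ε`. -/
def C0DistLt (g₀ g : Tensor) (ε : ℝ) : Prop :=
  ∃ δ : ℝ, δ < ε ∧ ∀ x, pointNorm g₀ g x ≤ δ

/-- the standard torus of revolution with radii `R > r` -/
noncomputable def torusMap (R r : ℝ) (x : Plane) : Space :=
  !₂[(R + r * Real.cos (x 1)) * Real.cos (x 0), (R + r * Real.cos (x 1)) * Real.sin (x 0),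
    r * Real.sin (x 1)]

/-- the metric `(R + r cos v)² du² + r² dv²` of the standard torus of revolution -/
noncomputable def torusMetric (R r : ℝ) : Tensor where
  E := fun x => (R + r * Real.cos (x 1)) ^ 2
  F := fun _ => 0
  G := fun _ => r ^ 2

/-- the metric `(R + s r cos v)² du² + r² dv²` -/
noncomputable def scaled (R s r : ℝ) : Tensor where
  E := fun x => (R + s * r * Real.cos (x 1)) ^ 2
  F := fun _ => 0
  G := fun _ => r ^ 2

theorem scaled_isMetric {R s r : ℝ} (hr : 0 < r) (hR : r < R) (hs0 : 0 < s) (hs1 : s ≤ 1) :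
    IsMetric (scaled R s r) := by
  have hp : ∀ v : ℝ, 0 < R + s * r * Real.cos v := by
    intro v
    have h1 : -1 ≤ Real.cos v := Real.neg_one_le_cos v
    have h2 : s * r ≤ r := by nlinarith
    have h3 : s * r * (-1) ≤ s * r * Real.cos v := mul_le_mul_of_nonneg_left h1 (by positivity)
    linarith
  refine ⟨?_, contDiff_const, contDiff_const, ?_, fun _ _ => rfl, fun _ _ => rfl, fun x => ?_,
    fun x => ?_⟩
  · show ContDiff ℝ ∞ fun x : Plane => (R + s * r * Real.cos (x 1)) ^ 2
    fun_prop
  · intro x i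
    show (R + s * r * Real.cos ((x + (2 * Real.pi) • EuclideanSpace.single i 1 : Plane) 1)) ^ 2 =
      (R + s * r * Real.cos (x 1)) ^ 2
    fin_cases i
    · simp
    · simp
  · show 0 < (R + s * r * Real.cos (x 1)) ^ 2
    have := hp (x 1)
    positivity
  · show 0 < (R + s * r * Real.cos (x 1)) ^ 2 * r ^ 2 - 0 ^ 2
    have := hp (x 1)
    rw [zero_pow two_ne_zero, sub_zero]
    positivity

theorem torusMetric_eq (R r : ℝ) : torusMetric R r = scaled R 1 r := by
  simp [torusMetric, scaled]

theorem torusMap_contDiff (R r : ℝ) (k : WithTop ℕ∞) : ContDiff ℝ k (torusMap R r) := by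
  rw [contDiff_euclidean]
  intro i
  fin_cases i
  · show ContDiff ℝ k fun x : Plane => (R + r * Real.cos (x 1)) * Real.cos (x 0)
    fun_prop
  · show ContDiff ℝ k fun x : Plane => (R + r * Real.cos (x 1)) * Real.sin (x 0)
    fun_prop
  · show ContDiff ℝ k fun x : Plane => r * Real.sin (x 1)
    fun_prop

open H882R2 in
theorem torusMap_0 (R r : ℝ) (x : Plane) : partialD 0 (torusMap R r) x =
    !₂[-((R + r * Real.cos (x 1)) * Real.sin (x 0)), (R + r * Real.cos (x 1)) * Real.cos (x 0),
      0] := by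
  apply pd_eq ((torusMap_contDiff R r 1).differentiable (by simp) x)
  unfold torusMap
  simp only [sh0, sh1]
  refine hasDerivAt_vec ?_ ?_ ?_
  · exact ((shift (Real.hasDerivAt_cos (x 0))).const_mul _).congr_deriv (by ring)
  · exact ((shift (Real.hasDerivAt_sin (x 0))).const_mul _).congr_deriv (by ring)
  · exact hasDerivAt_const _ _

open H882R2 in
theorem torusMap_1 (R r : ℝ) (x : Plane) : partialD 1 (torusMap R r) x =
    !₂[-(r * Real.sin (x 1)) * Real.cos (x 0), -(r * Real.sin (x 1)) * Real.sin (x 0),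
      r * Real.cos (x 1)] := by
  apply pd_eq ((torusMap_contDiff R r 1).differentiable (by simp) x)
  unfold torusMap
  simp only [sh2, sh3]
  have h1 : HasDerivAt (fun t => R + r * Real.cos (x 1 + t)) (-(r * Real.sin (x 1))) 0 :=
    (((shift (Real.hasDerivAt_cos (x 1))).const_mul r).const_add R).congr_deriv (by ring)
  exact hasDerivAt_vec (h1.mul_const _) (h1.mul_const _)
    (((shift (Real.hasDerivAt_sin (x 1))).const_mul r).congr_deriv (by ring))

open H882R2 in
theorem torusMap_embedding {R r : ℝ} (hr : 0 < r) (hR : r < R) :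
    IsIsometricEmbedding (torusMetric R r) (torusMap R r) := by
  have hp : ∀ v : ℝ, 0 < R + r * Real.cos v := by
    intro v
    nlinarith [Real.neg_one_le_cos v]
  refine ⟨⟨torusMap_contDiff R r _, ?_, fun x => ?_, fun x => ?_, fun x => ?_⟩, ?_⟩
  · intro x i
    unfold torusMap
    fin_cases i <;> simp
  · rw [torusMap_0, inner3]
    simp [torusMetric]
    linear_combination ((R + r * Real.cos (x 1)) ^ 2) * Real.sin_sq_add_cos_sq (x 0)
  · rw [torusMap_0, torusMap_1, inner3]
    simp [torusMetric]
    ring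
  · rw [torusMap_1, inner3]
    simp [torusMetric]
    linear_combination (r * Real.sin (x 1)) ^ 2 * Real.sin_sq_add_cos_sq (x 0) +
      r ^ 2 * Real.sin_sq_add_cos_sq (x 1)
  · intro x y hxy
    have h0 := congrArg (fun z : Space => z 0) hxy
    have h1 := congrArg (fun z : Space => z 1) hxy
    have h2 := congrArg (fun z : Space => z 2) hxy
    simp only [torusMap] at h0 h1 h2
    simp at h0 h1 h2
    have hs : Real.sin (x 1) = Real.sin (y 1) := by
      rcases h2 with h2 | h2
      · exact h2
      · exact absurd h2 hr.ne'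
    have hsq : (R + r * Real.cos (x 1)) ^ 2 = (R + r * Real.cos (y 1)) ^ 2 := by
      have e1 : ((R + r * Real.cos (x 1)) * Real.cos (x 0)) ^ 2 +
          ((R + r * Real.cos (x 1)) * Real.sin (x 0)) ^ 2 =
          ((R + r * Real.cos (y 1)) * Real.cos (y 0)) ^ 2 +
          ((R + r * Real.cos (y 1)) * Real.sin (y 0)) ^ 2 := by rw [h0, h1]
      linear_combination e1 - (R + r * Real.cos (x 1)) ^ 2 * Real.sin_sq_add_cos_sq (x 0) +
        (R + r * Real.cos (y 1)) ^ 2 * Real.sin_sq_add_cos_sq (y 0)
    have hrad : R + r * Real.cos (x 1) = R + r * Real.cos (y 1) :=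
      (pow_left_inj₀ (hp _).le (hp _).le two_ne_zero).1 hsq
    have hc : Real.cos (x 1) = Real.cos (y 1) := by
      have : r * Real.cos (x 1) = r * Real.cos (y 1) := by linarith
      exact mul_left_cancel₀ hr.ne' this
    rw [hrad] at h0 h1
    have hc0 : Real.cos (x 0) = Real.cos (y 0) := mul_left_cancel₀ (hp _).ne' h0
    have hs0 : Real.sin (x 0) = Real.sin (y 0) := mul_left_cancel₀ (hp _).ne' h1
    obtain ⟨m, hm⟩ := Real.Angle.angle_eq_iff_two_pi_dvd_sub.1
      (Real.Angle.cos_sin_inj hc0.symm hs0.symm)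
    obtain ⟨n, hn⟩ := Real.Angle.angle_eq_iff_two_pi_dvd_sub.1
      (Real.Angle.cos_sin_inj hc.symm hs.symm)
    refine ⟨m, n, ?_⟩
    ext i
    fin_cases i
    · simp
      linarith
    · simp
      linarith

/-- (i) For all radii `0 < r < R` the standard torus of revolution is a smoothly isometrically
embedded torus, and for every `ε > 0` there is a smooth metric `g` on the torus with
`‖g - g₀‖_{C⁰} < ε`, `g₀` the metric of the standard torus, such that the torus with the metric `g`
has no isometric immersion of class `C²` into Euclidean 3-space. (ii) Hence it is not true that for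
each metric `g₀` on the torus with a smooth isometric embedding into Euclidean 3-space there is
`ε > 0` such that each smooth metric `g` with `‖g - g₀‖_{C⁰} < ε` has one. -/
theorem result :
    (∀ R r : ℝ, 0 < r → r < R →
      IsMetric (torusMetric R r) ∧ IsIsometricEmbedding (torusMetric R r) (torusMap R r) ∧
      ∀ ε : ℝ, 0 < ε → ∃ g : Tensor, IsMetric g ∧ C0DistLt (torusMetric R r) g ε ∧
        ¬ ∃ f : Plane → Space, IsIsometricImmersion 2 g f) ∧
    ¬ (∀ g₀ : Tensor, IsMetric g₀ → (∃ f₀ : Plane → Space, IsIsometricEmbedding g₀ f₀) →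
      ∃ ε : ℝ, 0 < ε ∧ ∀ g : Tensor, IsMetric g → C0DistLt g₀ g ε →
        ∃ f : Plane → Space, IsIsometricEmbedding g f) := by
  have main : ∀ R r : ℝ, 0 < r → r < R →
      IsMetric (torusMetric R r) ∧ IsIsometricEmbedding (torusMetric R r) (torusMap R r) ∧
      ∀ ε : ℝ, 0 < ε → ∃ g : Tensor, IsMetric g ∧ C0DistLt (torusMetric R r) g ε ∧
        ¬ ∃ f : Plane → Space, IsIsometricImmersion 2 g f := by
    intro R r hr hR
    refine ⟨?_, torusMap_embedding hr hR, fun ε hε => ?_⟩
    · rw [torusMetric_eq]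
      exact scaled_isMetric hr hR one_pos le_rfl
    have hRr : 0 < R - r := by linarith
    have hR0 : 0 < R := by linarith
    obtain ⟨t, ht0, ht1, ht2⟩ : ∃ t : ℝ, 0 < t ∧ t < 1 ∧
        t * (4 * R * r) / (R - r) ^ 2 < ε := by
      refine ⟨min (1 / 2) (ε * (R - r) ^ 2 / (8 * R * r)), by positivity, ?_, ?_⟩
      · exact lt_of_le_of_lt (min_le_left _ _) (by norm_num)
      · have h1 : min (1 / 2) (ε * (R - r) ^ 2 / (8 * R * r)) * (4 * R * r) ≤
            ε * (R - r) ^ 2 / (8 * R * r) * (4 * R * r) :=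
          mul_le_mul_of_nonneg_right (min_le_right _ _) (by positivity)
        have h2 : ε * (R - r) ^ 2 / (8 * R * r) * (4 * R * r) = ε / 2 * (R - r) ^ 2 := by
          field_simp
          ring
        rw [div_lt_iff₀ (by positivity)]
        have h3 : 0 < ε * (R - r) ^ 2 := by positivity
        linarith
    have hs0 : 0 < 1 - t := by linarith
    have hs1 : 1 - t < 1 := by linarith
    refine ⟨scaled R (1 - t) r, scaled_isMetric hr hR hs0 hs1.le, ⟨_, ht2, fun x => ?_⟩, ?_⟩
    · set c := Real.cos (x 1) with hc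
      have hc1 : -1 ≤ c := Real.neg_one_le_cos _
      have hc2 : c ≤ 1 := Real.cos_le_one _
      have hE : 0 < R + r * c := by nlinarith
      have hE' : R - r ≤ R + r * c := by nlinarith
      have hdet : Matrix.det (!![(R + r * c) ^ 2, 0; 0, r ^ 2] : Matrix (Fin 2) (Fin 2) ℝ) =
          (R + r * c) ^ 2 * r ^ 2 := by
        rw [Matrix.det_fin_two_of]; ring
      have hinv : (!![(R + r * c) ^ 2, 0; 0, r ^ 2] : Matrix (Fin 2) (Fin 2) ℝ)⁻¹ =
          !![1 / (R + r * c) ^ 2, 0; 0, 1 / r ^ 2] := by
        rw [Matrix.inv_def, hdet, Matrix.adjugate_fin_two_of, Ring.inverse_eq_inv']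
        ext i j
        fin_cases i <;> fin_cases j <;> simp <;> field_simp
      have hnorm : pointNorm (torusMetric R r) (scaled R (1 - t) r) x =
          |(R + (1 - t) * r * c) ^ 2 - (R + r * c) ^ 2| / (R + r * c) ^ 2 := by
        unfold pointNorm
        simp only [torusMetric, scaled, ← hc]
        rw [hinv, sub_self, sub_self, pow_two, Matrix.mul_fin_two, Matrix.mul_fin_two,
          Matrix.trace_fin_two_of]
        rw [show (1 / (R + r * c) ^ 2 * ((R + (1 - t) * r * c) ^ 2 - (R + r * c) ^ 2) + 0 * 0) *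
            (1 / (R + r * c) ^ 2 * ((R + (1 - t) * r * c) ^ 2 - (R + r * c) ^ 2) + 0 * 0) +
            (1 / (R + r * c) ^ 2 * 0 + 0 * 0) *
            (0 * ((R + (1 - t) * r * c) ^ 2 - (R + r * c) ^ 2) + 1 / r ^ 2 * 0) +
            ((0 * ((R + (1 - t) * r * c) ^ 2 - (R + r * c) ^ 2) + 1 / r ^ 2 * 0) *
            (1 / (R + r * c) ^ 2 * 0 + 0 * 0) +
            (0 * 0 + 1 / r ^ 2 * 0) * (0 * 0 + 1 / r ^ 2 * 0)) =
            (((R + (1 - t) * r * c) ^ 2 - (R + r * c) ^ 2) / (R + r * c) ^ 2) ^ 2 by ring,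
          Real.sqrt_sq_eq_abs, abs_div, abs_of_pos (show 0 < (R + r * c) ^ 2 by positivity)]
      rw [hnorm]
      have hbound : |(R + (1 - t) * r * c) ^ 2 - (R + r * c) ^ 2| ≤ t * (4 * R * r) := by
        rw [show (R + (1 - t) * r * c) ^ 2 - (R + r * c) ^ 2 =
          -(t * r * c) * (2 * R + (2 - t) * r * c) by ring, abs_mul, abs_neg]
        have h1 : |t * r * c| ≤ t * r := by
          rw [abs_mul, abs_of_pos (show 0 < t * r by positivity)]
          have : |c| ≤ 1 := abs_le.2 ⟨hc1, hc2⟩
          nlinarith [mul_pos ht0 hr]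
        have h2 : |2 * R + (2 - t) * r * c| ≤ 4 * R := by
          have h3 : |(2 - t) * r * c| ≤ 2 * R := by
            rw [abs_mul, abs_of_pos (show 0 < (2 - t) * r by nlinarith)]
            have h4 : |c| ≤ 1 := abs_le.2 ⟨hc1, hc2⟩
            have h5 : (2 - t) * r ≤ 2 * R := by nlinarith
            have h6 : 0 < (2 - t) * r := by nlinarith
            nlinarith [abs_nonneg c]
          calc |2 * R + (2 - t) * r * c| ≤ |2 * R| + |(2 - t) * r * c| := abs_add_le _ _
            _ ≤ 2 * R + 2 * R := by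
              rw [abs_of_pos (show 0 < 2 * R by positivity)]
              linarith
            _ = 4 * R := by ring
        calc |t * r * c| * |2 * R + (2 - t) * r * c| ≤ (t * r) * (4 * R) :=
            mul_le_mul h1 h2 (abs_nonneg _) (by positivity)
          _ = t * (4 * R * r) := by ring
      have hden : (R - r) ^ 2 ≤ (R + r * c) ^ 2 := pow_le_pow_left₀ hRr.le hE' 2
      exact div_le_div₀ (by positivity) hbound (by positivity) hden
    · rintro ⟨f, hf⟩
      refine H882R2.no_immersion (R := R) (s := 1 - t) (r := r) (f := f) hr hR hs0 hs1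
        ⟨hf.contDiff, hf.torus, fun x => ?_, hf.eq_F, hf.eq_G⟩
      exact hf.eq_E x
  refine ⟨main, fun h => ?_⟩
  obtain ⟨h1, h2, h3⟩ := main 2 1 one_pos (by norm_num)
  obtain ⟨ε, hε, h4⟩ := h _ h1 ⟨_, h2⟩
  obtain ⟨g, hg, hc, hno⟩ := h3 ε hε
  obtain ⟨f, hf⟩ := h4 g hg hc
  refine hno ⟨f, ⟨hf.immersion.contDiff.of_le ?_, hf.immersion.torus, hf.immersion.eq_E,
    hf.immersion.eq_F, hf.immersion.eq_G⟩⟩
  exact_mod_cast le_top

end Pool.Agent.Results.MP_665542_gt.StandardTorus
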